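import Mathlib

/-!
# The fundamental group of a surface with a boundary circle and `n` branch points
-/

open scoped commutatorElement

namespace PrymNil

/-- The free group on `a_0, b_0, …, a_(g-1), b_(g-1), c_0, …, c_(n-1)`: the fundamental group of an orientable surface of genus `g` with
`n` punctures and one boundary circle (with base point on this circle). -/
abbrev F (g n : ℕ) : Type := FreeGroup ((Fin g × Bool) ⊕ Fin n)

/-- the generator `a_i` -/
def ga {g : ℕ} (n : ℕ) (i : Fin g) : F g n := FreeGroup.of (Sum.inl (i, false))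

/-- the generator `b_i` -/
def gb {g : ℕ} (n : ℕ) (i : Fin g) : F g n := FreeGroup.of (Sum.inl (i, true))

/-- the generator `c_j`, a loop around the branch point `j` -/
def gc (g : ℕ) {n : ℕ} (j : Fin n) : F g n := FreeGroup.of (Sum.inr j)

/-- The boundary word `R = [a_0,b_0] ⋯ [a_(g-1),b_(g-1)] c_0 ⋯ c_(n-1)`. -/
def bdry (g n : ℕ) : F g n :=
  (List.ofFn fun i : Fin g => ⁅ga n i, gb n i⁆).prod * (List.ofFn fun j : Fin n => gc g j).prod

end PrymNil
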