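import Pool.Agent.Lib.MP_943dad_ag.NH.Reach

/-!
# Killing handles: cyclic, abelian and nilpotent groups
-/

open scoped commutatorElement

namespace PrymNil

section cyclic

variable {G : Type} [Group G]

/-- the multipliers of a handle `(x, 1)` behind the handle `u` -/
def W2 (u : G × G) (l : List (G × G)) (c : List G) : Subgroup G where
  carrier := {w | ∀ x, Reach (u :: (x, 1) :: l, c) (u :: (w * x, 1) :: l, c)}
  one_mem' := fun x => by
    rw [one_mul]
    exact Reach.refl _
  mul_mem' := by
    intro w w' h h' x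
    rw [mul_assoc]
    exact (h' x).trans (h (w' * x))
  inv_mem' := by
    intro w h x
    have := (h (w⁻¹ * x)).symm
    rwa [mul_inv_cancel_left] at this

theorem euclid1 (z : G) (l : List (G × G)) (c : List G) (n : ℕ) : ∀ a b : ℤ, b.natAbs = n →
    ∃ e : ℤ, Reach ((z ^ a, z ^ b) :: l, c) ((z ^ e, 1) :: l, c) := by
  induction n using Nat.strong_induction_on with
  | _ n ih =>
    intro a b hn
    by_cases hb : b = 0
    · subst hb
      refine ⟨a, ?_⟩
      rw [zpow_zero]
      exact Reach.refl _
    · have h1 := Reach.one (TX (-(a / b))) (z ^ a, z ^ b) l c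
      have h2 : (TX (-(a / b))).k (z ^ a, z ^ b) = (z ^ (a % b), z ^ b) := by
        simp only [TX]
        rw [← zpow_mul, ← zpow_add, Int.emod_def]
        congr 2
        ring
      rw [h2] at h1
      have h3 := Reach.one RR (z ^ (a % b), z ^ b) l c
      have h4 : RR.k (z ^ (a % b), z ^ b) = (z ^ b, z ^ (-(a % b))) := by
        simp only [RR]
        rw [← zpow_neg, ← zpow_add, ← zpow_add]
        congr 2
        ring
      rw [h4] at h3
      have h5 : (-(a % b)).natAbs < n := by
        have := Int.emod_nonneg a hb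
        have := Int.emod_lt_abs a hb
        rw [Int.abs_eq_natAbs] at this
        omega
      obtain ⟨e, he⟩ := ih _ h5 b (-(a % b)) rfl
      exact ⟨e, (h1.trans h3).trans he⟩

theorem euclid2 (z : G) (l : List (G × G)) (c : List G) (n : ℕ) : ∀ a b : ℤ, a.natAbs = n →
    ∃ e : ℤ, Reach ((z ^ a, 1) :: (z ^ b, 1) :: l, c) ((z ^ e, 1) :: (1, 1) :: l, c) := by
  have hswap : ∀ a b : ℤ, Reach ((z ^ a, (1 : G)) :: (z ^ b, 1) :: l, c) ((z ^ b, 1) :: (z ^ a, 1) :: l, c) := by
    intro a b
    have h1 := Reach.two SS (z ^ a, 1) (z ^ b, 1) l c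
    have h2 : SS.k (z ^ a, (1 : G)) (z ^ b, 1) = ((z ^ b, 1), (z ^ a, 1)) := by
      simp [SS]
    rwa [h2] at h1
  induction n using Nat.strong_induction_on with
  | _ n ih =>
    intro a b hn
    by_cases ha : a = 0
    · subst ha
      refine ⟨b, ?_⟩
      have := hswap 0 b
      rwa [zpow_zero] at this ⊢
    · have h1 : (z ^ a) ^ (-(b / a)) ∈ W2 (z ^ a, 1) l c := by
        refine Subgroup.zpow_mem _ ?_ _
        have : (z ^ a)⁻¹ ∈ W2 (z ^ a, 1) l c := fun x => slide1 (z ^ a, 1) x l c
        exact (Subgroup.inv_mem_iff _).1 this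
      have h2 := h1 (z ^ b)
      have h3 : (z ^ a) ^ (-(b / a)) * z ^ b = z ^ (b % a) := by
        rw [← zpow_mul, ← zpow_add, Int.emod_def]
        congr 1
        ring
      rw [h3] at h2
      have h5 : (b % a).natAbs < n := by
        have := Int.emod_nonneg b ha
        have := Int.emod_lt_abs b ha
        rw [Int.abs_eq_natAbs] at this
        omega
      obtain ⟨e, he⟩ := ih _ h5 (b % a) a rfl
      exact ⟨e, (h2.trans (hswap a (b % a))).trans he⟩

theorem push_int (z : G) (c : List G) (m : List (ℤ × ℤ)) : ∀ v : ℤ × ℤ, ∃ e : ℤ,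
    Reach ((v :: m).map (fun p => (z ^ p.1, z ^ p.2)), c) ((z ^ e, 1) :: List.replicate m.length (1, 1), c) := by
  induction m with
  | nil =>
    intro v
    exact euclid1 z [] c _ v.1 v.2 rfl
  | cons w m ih =>
    intro v
    obtain ⟨e, he⟩ := ih w
    have h1 := he.cons (z ^ v.1, z ^ v.2)
    obtain ⟨f, hf⟩ := euclid1 z ((z ^ e, 1) :: List.replicate m.length (1, 1)) c _ v.1 v.2 rfl
    obtain ⟨g, hg⟩ := euclid2 z (List.replicate m.length (1, 1)) c _ f e rfl
    exact ⟨g, (h1.trans hf).trans hg⟩

/-- all entries are powers of `z`: one handle is left -/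
theorem push (z : G) (c : List G) (v : G × G) (l : List (G × G))
    (h : ∀ w ∈ v :: l, w.1 ∈ Subgroup.zpowers z ∧ w.2 ∈ Subgroup.zpowers z) :
    ∃ e : ℤ, Reach (v :: l, c) ((z ^ e, 1) :: List.replicate l.length (1, 1), c) := by
  have h1 : ∀ l : List (G × G), (∀ w ∈ l, w.1 ∈ Subgroup.zpowers z ∧ w.2 ∈ Subgroup.zpowers z) →
      ∃ m : List (ℤ × ℤ), m.map (fun p => (z ^ p.1, z ^ p.2)) = l := by
    intro l
    induction l with
    | nil => exact fun _ => ⟨[], rfl⟩
    | cons v l ih =>
      intro h
      obtain ⟨m, hm⟩ := ih fun w hw => h w (List.mem_cons_of_mem _ hw)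
      obtain ⟨⟨a, ha⟩, ⟨b, hb⟩⟩ := h v List.mem_cons_self
      refine ⟨(a, b) :: m, ?_⟩
      rw [List.map_cons, hm]
      refine congrArg₂ _ (Prod.ext ha hb) rfl
  obtain ⟨m, hm⟩ := h1 l fun w hw => h w (List.mem_cons_of_mem _ hw)
  obtain ⟨⟨a, ha⟩, ⟨b, hb⟩⟩ := h v List.mem_cons_self
  obtain ⟨e, he⟩ := push_int z c m (a, b)
  refine ⟨e, ?_⟩
  rw [List.map_cons, hm] at he
  have h2 : m.length = l.length := by rw [← hm, List.length_map]
  have h3 : ((z ^ a, z ^ b) : G × G) = v := Prod.ext ha hb
  rw [h2] at he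
  dsimp only at he
  rwa [h3] at he

theorem com_replicate (n : ℕ) : com (List.replicate n ((1, 1) : G × G)) = 1 := by
  induction n with
  | zero => rfl
  | succ n ih => rw [List.replicate_succ, com_cons, ih]; simp

theorem push_last (z : G) (c : List G) (v : G × G) (l : List (G × G))
    (h : ∀ w ∈ v :: l, w.1 ∈ Subgroup.zpowers z ∧ w.2 ∈ Subgroup.zpowers z) :
    ∃ e : ℤ, Reach (v :: l, c) (List.replicate l.length (1, 1) ++ [(z ^ e, 1)], c) := by
  obtain ⟨e, he⟩ := push z c v l h
  have h1 := float (List.replicate l.length (1, 1)) (z ^ e) c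
  rw [com_replicate, one_mul, inv_one, mul_one] at h1
  exact ⟨e, he.trans h1.symm⟩

end cyclic

section abelian

theorem mem_one_of_map_replicate {G Q : Type} [Group G] [Group Q] (π : G →* Q) :
    ∀ (l : List (G × G)) (n : ℕ), (l.map fun v => (π v.1, π v.2)) = List.replicate n (1, 1) →
      ∀ w ∈ l, w.1 ∈ π.ker ∧ w.2 ∈ π.ker := by
  intro l n h w hw
  have h1 : (π w.1, π w.2) ∈ l.map fun v => (π v.1, π v.2) := List.mem_map.2 ⟨w, hw, rfl⟩
  rw [h] at h1
  have h2 := List.eq_of_mem_replicate h1
  rw [Prod.mk.injEq] at h2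
  exact ⟨MonoidHom.mem_ker.2 h2.1, MonoidHom.mem_ker.2 h2.2⟩

theorem abelian_kill (k d : ℕ) : ∀ (A : Type) [CommGroup A] (s : List A), s.length = d →
    Subgroup.closure {x | x ∈ s} = ⊤ → ∀ l : List (A × A), l.length = d + k →
      ∃ l1 : List (A × A), l1.length = d ∧ Reach (l, []) (l1 ++ List.replicate k (1, 1), []) := by
  induction d with
  | zero =>
    intro A _ s hs hcl l hl
    have h1 : ∀ x : A, x = 1 := by
      intro x
      have h2 : x ∈ Subgroup.closure {x | x ∈ s} := by rw [hcl]; exact Subgroup.mem_top x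
      have h3 : {x | x ∈ s} = ∅ := by
        rw [List.length_eq_zero_iff.1 hs]
        ext y
        simp
      rw [h3, Subgroup.closure_empty] at h2
      exact Subgroup.mem_bot.1 h2
    refine ⟨[], rfl, ?_⟩
    have h4 : l = List.replicate k (1, 1) := by
      rw [List.eq_replicate_iff]
      exact ⟨by omega, fun v _ => Prod.ext (h1 v.1) (h1 v.2)⟩
    rw [h4, List.nil_append]
    exact Reach.refl _
  | succ d ih =>
    intro A _ s hs hcl l hl
    obtain ⟨t, s', rfl⟩ : ∃ t s', s = t :: s' := by
      cases s with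
      | nil => simp at hs
      | cons t s' => exact ⟨t, s', rfl⟩
    obtain ⟨v, l', rfl⟩ : ∃ v l', l = v :: l' := by
      cases l with
      | nil =>
        rw [List.length_nil] at hl
        omega
      | cons v l' => exact ⟨v, l', rfl⟩
    rw [List.length_cons] at hs hl
    set A' : Subgroup A := Subgroup.closure {x | x ∈ s'} with hA'
    let π : A →* A ⧸ A' := QuotientGroup.mk' A'
    have hcyc : ∀ x : A, π x ∈ Subgroup.zpowers (π t) := by
      intro x
      have h1 : (⊤ : Subgroup A) ≤ Subgroup.zpowers t ⊔ A' := by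
        rw [← hcl, Subgroup.closure_le]
        intro y hy
        rcases List.mem_cons.1 hy with rfl | hy
        · exact Subgroup.mem_sup_left (Subgroup.mem_zpowers y)
        · exact Subgroup.mem_sup_right (Subgroup.subset_closure hy)
      obtain ⟨y, hy, z, hz, rfl⟩ := Subgroup.mem_sup.1 (h1 (Subgroup.mem_top x))
      obtain ⟨n, rfl⟩ := hy
      refine ⟨n, ?_⟩
      have h2 : π z = 1 := (QuotientGroup.eq_one_iff z).2 hz
      dsimp only
      rw [map_mul, h2, mul_one, map_zpow]
    obtain ⟨e, he⟩ := push (π t) [] (π v.1, π v.2) (l'.map fun v => (π v.1, π v.2)) (by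
      intro w hw
      rcases List.mem_cons.1 hw with rfl | hw
      · exact ⟨hcyc _, hcyc _⟩
      · obtain ⟨u, -, rfl⟩ := List.mem_map.1 hw
        exact ⟨hcyc _, hcyc _⟩)
    have he' : Reach (mp π (v :: l', [])) ((π t ^ e, 1) :: List.replicate (l'.map fun v => (π v.1, π v.2)).length (1, 1), []) := he
    obtain ⟨⟨l'', c''⟩, hb1, hb2⟩ := he'.lift
    rw [mp_mk, Prod.mk.injEq] at hb2
    obtain ⟨hb3, hb4⟩ := hb2
    have hc'' : c'' = [] := List.map_eq_nil_iff.1 hb4
    subst hc''
    obtain ⟨v'', t'', rfl⟩ : ∃ v'' t'', l'' = v'' :: t'' := by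
      cases l'' with
      | nil => simp at hb3
      | cons v t => exact ⟨v, t, rfl⟩
    rw [List.map_cons, List.cons.injEq] at hb3
    have hker : ∀ w ∈ t'', w.1 ∈ A' ∧ w.2 ∈ A' := by
      have := mem_one_of_map_replicate π t'' _ hb3.2
      intro w hw
      have h5 := this w hw
      rwa [QuotientGroup.ker_mk'] at h5
    obtain ⟨⟨t', c'⟩, ht'⟩ := exists_mp A' (t'', []) (by
      rintro x (⟨w, hw, hx⟩ | hx)
      · rcases hx with rfl | rfl
        · exact (hker w hw).1
        · exact (hker w hw).2
      · exact absurd hx List.not_mem_nil)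
    obtain ⟨⟨e1, s''⟩, hs''⟩ := exists_mp A' ([], s') (by
      rintro x (⟨w, hw, hx⟩ | hx)
      · exact absurd hw List.not_mem_nil
      · exact Subgroup.subset_closure hx)
    rw [mp_mk, Prod.mk.injEq] at ht' hs''
    have hcl' : Subgroup.closure {x | x ∈ s''} = ⊤ := by
      apply Subgroup.map_injective A'.subtype_injective
      rw [MonoidHom.map_closure, ← MonoidHom.range_eq_map, Subgroup.range_subtype]
      conv_rhs => rw [hA']
      congr 1
      ext x
      rw [← hs''.2]
      simp
    have hlen : t'.length = d + k := by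
      have h6 := congrArg List.length ht'.1
      rw [List.length_map] at h6
      have h7 := hb1.len
      simp only [List.length_cons] at h7
      omega
    obtain ⟨l1, hl1, hr⟩ := ih A' s'' (by
      have h6 := congrArg List.length hs''.2
      rw [List.length_map] at h6
      omega) hcl' t' hlen
    have hr2 := hr.map A'.subtype
    rw [mp_mk, mp_mk, ht'.1, List.map_nil, List.map_append, List.map_replicate] at hr2
    refine ⟨v'' :: l1.map (fun v => (A'.subtype v.1, A'.subtype v.2)), by simp [hl1], ?_⟩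
    have hr3 := hr2.cons v''
    refine hb1.trans ?_
    simpa using hr3

end abelian

section nilpotent

/-- a nilpotent group which is not commutative has a central element `≠ 1` in the commutator subgroup -/
theorem exists_central (H : Type) [Group H] [Group.IsNilpotent H] (h : ¬ ∀ x y : H, x * y = y * x) :
    ∃ z : H, z ≠ 1 ∧ z ∈ Subgroup.center H ∧ z ∈ commutator H := by
  classical
  have h1 : ∃ n, (⊤ : Subgroup H).lowerCentralSeries n = ⊥ := Subgroup.nilpotent_iff_lowerCentralSeries.1 inferInstance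
  have h2 := Nat.find_spec h1
  have h3 : ∀ m < Nat.find h1, (⊤ : Subgroup H).lowerCentralSeries m ≠ ⊥ := fun m hm => Nat.find_min h1 hm
  set n := Nat.find h1 with hn
  have hn1 : 1 < n := by
    by_contra hcon
    apply h
    have h4 : (⊤ : Subgroup H).lowerCentralSeries 1 = ⊥ := by
      rw [eq_bot_iff, ← h2]
      exact Subgroup.lowerCentralSeries_antitone _ (by omega)
    intro x y
    have h5 : ⁅x, y⁆ ∈ (⊤ : Subgroup H).lowerCentralSeries 1 := by
      rw [Subgroup.top_lowerCentralSeries_one]
      exact Subgroup.commutator_mem_commutator (Subgroup.mem_top x) (Subgroup.mem_top y)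
    rw [h4, Subgroup.mem_bot] at h5
    exact commutatorElement_eq_one_iff_mul_comm.1 h5
  obtain ⟨m, hm⟩ : ∃ m, n = m + 1 := ⟨n - 1, by omega⟩
  have h6 := h3 m (by omega)
  obtain ⟨⟨z, hz⟩, hz1⟩ := Subgroup.ne_bot_iff_exists_ne_one.1 h6
  refine ⟨z, fun h7 => hz1 (Subtype.ext h7), ?_, ?_⟩
  · rw [Subgroup.mem_center_iff]
    intro g
    have h8 : ⁅z, g⁆ ∈ (⊤ : Subgroup H).lowerCentralSeries (m + 1) := by
      rw [Subgroup.lowerCentralSeries_succ]
      exact Subgroup.commutator_mem_commutator hz (Subgroup.mem_top g)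
    rw [← hm, h2, Subgroup.mem_bot] at h8
    exact (commutatorElement_eq_one_iff_mul_comm.1 h8).symm
  · rw [← Subgroup.top_lowerCentralSeries_one]
    exact Subgroup.lowerCentralSeries_antitone _ (by omega : 1 ≤ m) hz

/-- a central element of the commutator subgroup is not needed for generation -/
theorem mem_of_sup_zpowers {H : Type} [Group H] {z : H} (hz : z ∈ Subgroup.center H) (hz' : z ∈ commutator H)
    (K : Subgroup H) (h : K ⊔ Subgroup.zpowers z = ⊤) : z ∈ K := by
  have hn : (Subgroup.zpowers z).Normal := by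
    refine ⟨fun n hn g => ?_⟩
    obtain ⟨m, rfl⟩ := hn
    have h1 : z ^ m ∈ Subgroup.center H := Subgroup.zpow_mem _ hz m
    rw [Subgroup.mem_center_iff] at h1
    dsimp only
    rw [h1 g, mul_inv_cancel_right]
    exact ⟨m, rfl⟩
  have hle : commutator H ≤ K := by
    rw [commutator_def, Subgroup.commutator_le]
    intro x _ y _
    have hx : x ∈ K ⊔ Subgroup.zpowers z := by rw [h]; exact Subgroup.mem_top x
    have hy : y ∈ K ⊔ Subgroup.zpowers z := by rw [h]; exact Subgroup.mem_top y
    rw [Subgroup.mem_sup_of_normal_right] at hx hy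
    obtain ⟨a, ha, u, ⟨m, rfl⟩, rfl⟩ := hx
    obtain ⟨b, hb, w, ⟨n, rfl⟩, rfl⟩ := hy
    have h1 := Subgroup.mem_center_iff.1 (Subgroup.zpow_mem _ hz m)
    have h2 := Subgroup.mem_center_iff.1 (Subgroup.zpow_mem _ hz n)
    dsimp only
    have e : ⁅a * z ^ m, b * z ^ n⁆ = ⁅a, b⁆ := by
      simp only [commutatorElement_def, mul_inv_rev]
      calc a * z ^ m * (b * z ^ n) * ((z ^ m)⁻¹ * a⁻¹) * ((z ^ n)⁻¹ * b⁻¹)
          = a * (z ^ m * b) * (z ^ n * (z ^ m)⁻¹) * a⁻¹ * ((z ^ n)⁻¹ * b⁻¹) := by group
        _ = a * (b * z ^ m) * (z ^ n * (z ^ m)⁻¹) * a⁻¹ * ((z ^ n)⁻¹ * b⁻¹) := by rw [h1 b]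
        _ = a * b * (z ^ n * a⁻¹) * ((z ^ n)⁻¹ * b⁻¹) := by group
        _ = a * b * (a⁻¹ * z ^ n) * ((z ^ n)⁻¹ * b⁻¹) := by rw [h2 a⁻¹]
        _ = a * b * a⁻¹ * b⁻¹ := by group
    rw [e, commutatorElement_def]
    exact K.mul_mem (K.mul_mem (K.mul_mem ha hb) (K.inv_mem ha)) (K.inv_mem hb)
  exact hle hz'

theorem nilpotent_kill (k d : ℕ) (N : ℕ) : ∀ (H : Type) [Group H] [Finite H] [Group.IsNilpotent H], Nat.card H = N →
    ∀ s : List H, s.length = d → Subgroup.closure {x | x ∈ s} = ⊤ → ∀ (l : List (H × H)) (c : List H),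
      l.length = d + k → Subgroup.closure (ent (l, c)) = ⊤ →
        ∃ (l1 : List (H × H)) (c' : List H), l1.length = d ∧ Reach (l, c) (l1 ++ List.replicate k (1, 1), c') := by
  induction N using Nat.strong_induction_on with
  | _ N ih =>
    intro H _ _ _ hN s hs hcl l c hl hcl2
    by_cases hcomm : ∀ x y : H, x * y = y * x
    · letI : CommGroup H := { ‹Group H› with mul_comm := hcomm }
      obtain ⟨l1, h1, h2⟩ := abelian_kill k d H s hs hcl l hl
      exact ⟨l1, c, h1, h2.ext c⟩
    · obtain ⟨z, hz1, hzc, hz'⟩ := exists_central H hcomm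
      have hn : (Subgroup.zpowers z).Normal := by
        refine ⟨fun n hn g => ?_⟩
        obtain ⟨m, rfl⟩ := hn
        have h1 : z ^ m ∈ Subgroup.center H := Subgroup.zpow_mem _ hzc m
        rw [Subgroup.mem_center_iff] at h1
        dsimp only
        rw [h1 g, mul_inv_cancel_right]
        exact ⟨m, rfl⟩
      let π : H →* H ⧸ Subgroup.zpowers z := QuotientGroup.mk' _
      have hπ : Function.Surjective π := QuotientGroup.mk'_surjective _
      have hcard : Nat.card (H ⧸ Subgroup.zpowers z) < N := by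
        have h1 := Subgroup.card_eq_card_quotient_mul_card_subgroup (Subgroup.zpowers z)
        have h2 : 1 < Nat.card (Subgroup.zpowers z) := by
          rw [Subgroup.one_lt_card_iff_ne_bot, Ne, Subgroup.zpowers_eq_bot]
          exact hz1
        have h3 : 0 < Nat.card (H ⧸ Subgroup.zpowers z) := Nat.card_pos
        rw [← hN, h1]
        nlinarith
      have hcl' : Subgroup.closure {x | x ∈ s.map π} = ⊤ := by
        have h1 : {x | x ∈ s.map π} = π '' {x | x ∈ s} := by
          ext x
          simp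
        rw [h1, ← MonoidHom.map_closure, hcl, ← MonoidHom.range_eq_map, MonoidHom.range_eq_top.2 hπ]
      have hcl2' : Subgroup.closure (ent (mp π (l, c))) = ⊤ := by
        rw [ent_map, ← MonoidHom.map_closure, hcl2, ← MonoidHom.range_eq_map, MonoidHom.range_eq_top.2 hπ]
      have hs' : (s.map π).length = d := by rw [List.length_map, hs]
      have hl' : (mp π (l, c)).1.length = d + k := by rw [mp_mk, List.length_map, hl]
      have ih1 := ih (Nat.card (H ⧸ Subgroup.zpowers z)) hcard
      have ih2 := ih1 (H ⧸ Subgroup.zpowers z) rfl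
      have ih3 := ih2 (s.map π) hs' hcl'
      have ih4 := ih3 (mp π (l, c)).1 (mp π (l, c)).2 hl'
      obtain ⟨l1, c1, hl1, hr⟩ := ih4 hcl2'
      obtain ⟨⟨l', c'⟩, hb1, hb2⟩ := Reach.lift (a := (l, c)) π hr
      rw [mp_mk, Prod.mk.injEq] at hb2
      have hlen := hb1.len
      dsimp only at hlen
      obtain ⟨m1, m2, rfl, hm1, hm2⟩ : ∃ m1 m2 : List (H × H), l' = m1 ++ m2 ∧ m1.length = d ∧
          (m2.map fun v => (π v.1, π v.2)) = List.replicate k (1, 1) := by
        refine ⟨l'.take d, l'.drop d, (List.take_append_drop d l').symm, ?_, ?_⟩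
        · rw [List.length_take]
          omega
        · rw [List.map_drop, hb2.1, ← hl1, List.drop_left]
      have hm2l : m2.length = k := by
        have := congrArg List.length hm2
        simpa using this
      cases m2 with
      | nil =>
        have hk : k = 0 := by simpa using hm2l.symm
        subst hk
        exact ⟨m1, c', hm1, by simpa using hb1⟩
      | cons v m2 =>
        have hker : ∀ w ∈ v :: m2, w.1 ∈ Subgroup.zpowers z ∧ w.2 ∈ Subgroup.zpowers z := by
          have := mem_one_of_map_replicate π (v :: m2) _ hm2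
          intro w hw
          have h5 := this w hw
          rwa [QuotientGroup.ker_mk'] at h5
        obtain ⟨e, he⟩ := push_last z c' v m2 hker
        have h1 := hb1.trans (he.app m1)
        rw [← List.append_assoc] at h1
        set m3 := m1 ++ List.replicate m2.length ((1, 1) : H × H) with hm3
        have h2 : z ∈ Subgroup.closure (ent (m3, c')) := by
          refine mem_of_sup_zpowers hzc hz' _ ?_
          rw [eq_top_iff, ← hcl2, ← h1.closure_eq, Subgroup.closure_le]
          rintro x (⟨w, hw, hx⟩ | hx)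
          · rcases List.mem_append.1 hw with hw | hw
            · exact Subgroup.mem_sup_left (Subgroup.subset_closure (Or.inl ⟨w, hw, hx⟩))
            · have h3 : w = (z ^ e, 1) := by simpa using hw
              subst h3
              rcases hx with rfl | rfl
              · exact Subgroup.mem_sup_right ⟨e, rfl⟩
              · exact Subgroup.one_mem _
          · exact Subgroup.mem_sup_left (Subgroup.subset_closure (Or.inr hx))
        have h3 := kill_last m3 c' (z ^ e) (Subgroup.zpow_mem _ h2 e)
        refine ⟨m1, c', hm1, ?_⟩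
        have h4 := h1.trans h3
        have h5 : m3 ++ [((1, 1) : H × H)] = m1 ++ List.replicate k (1, 1) := by
          rw [hm3, List.append_assoc]
          congr 1
          rw [← hm2l, List.length_cons, List.replicate_succ']
        rwa [h5] at h4

end nilpotent

end PrymNil
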