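import Mathlib

/-!
# Handles, branch loops and moves

A state over a group `G` is a list of pairs `(x_i, y_i)` (the values on the handles) and a list of elements `c_j` (the values on
the branch loops).  Its total is `∏ [x_i, y_i] * ∏ c_j`.
-/

open scoped commutatorElement

namespace PrymNil

/-- values on the handles and on the branch loops -/
abbrev St (G : Type) : Type := List (G × G) × List G

section basic

variable {G G' G'' : Type} [Group G] [Group G'] [Group G'']

/-- the product of the commutators -/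
def com (l : List (G × G)) : G := (l.map fun v => ⁅v.1, v.2⁆).prod

/-- the total -/
def tot (a : St G) : G := com a.1 * a.2.prod

/-- image under a homomorphism -/
def mp (ψ : G →* G') (a : St G) : St G' := (a.1.map fun v => (ψ v.1, ψ v.2), a.2.map ψ)

theorem com_nil : com ([] : List (G × G)) = 1 := rfl

theorem com_cons (v : G × G) (l : List (G × G)) : com (v :: l) = ⁅v.1, v.2⁆ * com l := by
  simp [com]

theorem com_append (l l' : List (G × G)) : com (l ++ l') = com l * com l' := by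
  simp [com]

theorem tot_cons (v : G × G) (l : List (G × G)) (c : List G) :
    tot (v :: l, c) = ⁅v.1, v.2⁆ * tot (l, c) := by
  simp only [tot, com_cons, mul_assoc]

theorem mp_mk (ψ : G →* G') (l : List (G × G)) (c : List G) :
    mp ψ (l, c) = (l.map fun v => (ψ v.1, ψ v.2), c.map ψ) := rfl

theorem mp_mp (ψ : G →* G') (χ : G' →* G'') (a : St G) : mp χ (mp ψ a) = mp (χ.comp ψ) a := by
  simp [mp, Function.comp_def]

theorem com_map (ψ : G →* G') (l : List (G × G)) : com (l.map fun v => (ψ v.1, ψ v.2)) = ψ (com l) := by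
  induction l with
  | nil => simp [com]
  | cons v l ih => rw [List.map_cons, com_cons, com_cons, ih, map_mul, map_commutatorElement]

theorem tot_mp (ψ : G →* G') (a : St G) : tot (mp ψ a) = ψ (tot a) := by
  unfold tot mp
  rw [com_map, map_mul, map_list_prod]

end basic

/-- Natural invertible operations on states which keep the total and the conjugacy classes of the branch loops. -/
structure Move where
  f : ∀ {G : Type} [Group G], St G → St G
  fi : ∀ {G : Type} [Group G], St G → St G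
  nat : ∀ {G G' : Type} [Group G] [Group G'] (ψ : G →* G') (a : St G), f (mp ψ a) = mp ψ (f a)
  nati : ∀ {G G' : Type} [Group G] [Group G'] (ψ : G →* G') (a : St G), fi (mp ψ a) = mp ψ (fi a)
  l : ∀ {G : Type} [Group G] (a : St G), fi (f a) = a
  r : ∀ {G : Type} [Group G] (a : St G), f (fi a) = a
  p : ∀ {G : Type} [Group G] (a : St G), tot (f a) = tot a
  len : ∀ {G : Type} [Group G] (a : St G), (f a).1.length = a.1.length
  cj : ∀ {G : Type} [Group G] (a : St G), List.Forall₂ IsConj a.2 (f a).2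

theorem forall₂_conj_refl {G : Type} [Group G] (c : List G) : List.Forall₂ IsConj c c :=
  List.forall₂_same.2 fun _ _ => IsConj.refl _

theorem forall₂_conj_trans {G : Type} [Group G] {a b c : List G} (h : List.Forall₂ IsConj a b)
    (h' : List.Forall₂ IsConj b c) : List.Forall₂ IsConj a c := by
  induction h generalizing c with
  | nil => exact h'
  | cons h1 _ ih =>
    cases h' with
    | cons h2 h3 => exact List.Forall₂.cons (h1.trans h2) (ih h3)

namespace Move

/-- the identity -/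
def one : Move where
  f := fun a => a
  fi := fun a => a
  nat := fun _ _ => rfl
  nati := fun _ _ => rfl
  l := fun _ => rfl
  r := fun _ => rfl
  p := fun _ => rfl
  len := fun _ => rfl
  cj := fun a => forall₂_conj_refl a.2

/-- composition: first `M`, then `N` -/
def trans (M N : Move) : Move where
  f := fun a => N.f (M.f a)
  fi := fun a => M.fi (N.fi a)
  nat := fun ψ a => by rw [M.nat, N.nat]
  nati := fun ψ a => by rw [N.nati, M.nati]
  l := fun a => by rw [N.l, M.l]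
  r := fun a => by rw [M.r, N.r]
  p := fun a => by rw [N.p, M.p]
  len := fun a => by rw [N.len, M.len]
  cj := fun a => forall₂_conj_trans (M.cj a) (N.cj (M.f a))

/-- the inverse -/
def symm (M : Move) : Move where
  f := M.fi
  fi := M.f
  nat := M.nati
  nati := M.nat
  l := M.r
  r := M.l
  p := fun a => by
    have := M.p (M.fi a)
    rw [M.r] at this
    exact this.symm
  len := fun a => by
    have := M.len (M.fi a)
    rw [M.r] at this
    exact this.symm
  cj := fun a => by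
    have := M.cj (M.fi a)
    rw [M.r] at this
    exact (this.imp fun _ _ h => h.symm).flip

/-- the operation on all handles but the first one -/
def cons (M : Move) : Move where
  f := fun a => match a with
    | ([], c) => ([], c)
    | (v :: l, c) => (v :: (M.f (l, c)).1, (M.f (l, c)).2)
  fi := fun a => match a with
    | ([], c) => ([], c)
    | (v :: l, c) => (v :: (M.fi (l, c)).1, (M.fi (l, c)).2)
  nat := by
    rintro G G' _ _ ψ ⟨_ | ⟨v, l⟩, c⟩
    · rfl
    · have := M.nat ψ (l, c)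
      simp only [mp] at this ⊢
      simp only [List.map_cons]
      rw [this]
  nati := by
    rintro G G' _ _ ψ ⟨_ | ⟨v, l⟩, c⟩
    · rfl
    · have := M.nati ψ (l, c)
      simp only [mp] at this ⊢
      simp only [List.map_cons]
      rw [this]
  l := by
    rintro G _ ⟨_ | ⟨v, l⟩, c⟩
    · rfl
    · have := M.l (l, c)
      simp only [Prod.mk.eta, this]
  r := by
    rintro G _ ⟨_ | ⟨v, l⟩, c⟩
    · rfl
    · have := M.r (l, c)
      simp only [Prod.mk.eta, this]
  p := by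
    rintro G _ ⟨_ | ⟨v, l⟩, c⟩
    · rfl
    · have := M.p (l, c)
      simp only [tot_cons, Prod.mk.eta, this]
  len := by
    rintro G _ ⟨_ | ⟨v, l⟩, c⟩
    · rfl
    · have := M.len (l, c)
      simp only [List.length_cons] at this ⊢
      rw [this]
  cj := by
    rintro G _ ⟨_ | ⟨v, l⟩, c⟩
    · exact forall₂_conj_refl c
    · exact M.cj (l, c)

/-- the part without branch loops, applied to the handles only -/
def ext (M : Move) : Move where
  f := fun a => ((M.f (a.1, [])).1, a.2)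
  fi := fun a => ((M.fi (a.1, [])).1, a.2)
  nat := by
    rintro G G' _ _ ψ ⟨l, c⟩
    have := M.nat ψ (l, [])
    simp only [mp, List.map_nil] at this ⊢
    rw [this]
  nati := by
    rintro G G' _ _ ψ ⟨l, c⟩
    have := M.nati ψ (l, [])
    simp only [mp, List.map_nil] at this ⊢
    rw [this]
  l := by
    rintro G _ ⟨l, c⟩
    have h := M.cj (l, ([] : List G))
    have h1 : (M.f (l, ([] : List G))).2 = [] := List.forall₂_nil_left_iff.1 h
    have h2 : ((M.f (l, ([] : List G))).1, ([] : List G)) = M.f (l, []) := Prod.ext rfl h1.symm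
    simp only [h2, M.l]
  r := by
    rintro G _ ⟨l, c⟩
    have h := M.symm.cj (l, ([] : List G))
    have h1 : (M.fi (l, ([] : List G))).2 = [] := List.forall₂_nil_left_iff.1 h
    have h2 : ((M.fi (l, ([] : List G))).1, ([] : List G)) = M.fi (l, []) := Prod.ext rfl h1.symm
    simp only [h2, M.r]
  p := by
    rintro G _ ⟨l, c⟩
    have h := M.cj (l, ([] : List G))
    have h1 : (M.f (l, ([] : List G))).2 = [] := List.forall₂_nil_left_iff.1 h
    have := M.p (l, [])
    simp only [tot, h1, List.prod_nil, mul_one] at this ⊢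
    rw [this]
  len := fun a => M.len (a.1, [])
  cj := fun a => forall₂_conj_refl a.2

end Move

/-- operations on one handle which keep the commutator -/
structure One where
  k : ∀ {G : Type} [Group G], G × G → G × G
  ki : ∀ {G : Type} [Group G], G × G → G × G
  nat : ∀ {G G' : Type} [Group G] [Group G'] (ψ : G →* G') (v : G × G),
    k (ψ v.1, ψ v.2) = (ψ (k v).1, ψ (k v).2)
  nati : ∀ {G G' : Type} [Group G] [Group G'] (ψ : G →* G') (v : G × G),
    ki (ψ v.1, ψ v.2) = (ψ (ki v).1, ψ (ki v).2)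
  l : ∀ {G : Type} [Group G] (v : G × G), ki (k v) = v
  r : ∀ {G : Type} [Group G] (v : G × G), k (ki v) = v
  c : ∀ {G : Type} [Group G] (v : G × G), ⁅(k v).1, (k v).2⁆ = ⁅v.1, v.2⁆

/-- the operation on the first handle -/
def One.hd (K : One) : Move where
  f := fun a => match a with
    | ([], c) => ([], c)
    | (v :: l, c) => (K.k v :: l, c)
  fi := fun a => match a with
    | ([], c) => ([], c)
    | (v :: l, c) => (K.ki v :: l, c)
  nat := by
    rintro G G' _ _ ψ ⟨_ | ⟨v, l⟩, c⟩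
    · rfl
    · simp only [mp, List.map_cons, K.nat]
  nati := by
    rintro G G' _ _ ψ ⟨_ | ⟨v, l⟩, c⟩
    · rfl
    · simp only [mp, List.map_cons, K.nati]
  l := by
    rintro G _ ⟨_ | ⟨v, l⟩, c⟩
    · rfl
    · simp only [K.l]
  r := by
    rintro G _ ⟨_ | ⟨v, l⟩, c⟩
    · rfl
    · simp only [K.r]
  p := by
    rintro G _ ⟨_ | ⟨v, l⟩, c⟩
    · rfl
    · simp only [tot_cons, K.c]
  len := by
    rintro G _ ⟨_ | ⟨v, l⟩, c⟩ <;> rfl
  cj := by
    rintro G _ ⟨_ | ⟨v, l⟩, c⟩ <;> exact forall₂_conj_refl c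

/-- `(x, y) ↦ (x y^n, y)` -/
def TX (n : ℤ) : One where
  k := fun v => (v.1 * v.2 ^ n, v.2)
  ki := fun v => (v.1 * v.2 ^ (-n), v.2)
  nat := fun ψ v => by simp
  nati := fun ψ v => by simp
  l := fun v => by simp
  r := fun v => by simp
  c := fun v => by
    simp only [commutatorElement_def]
    group

/-- `(x, y) ↦ (x y x⁻¹, x⁻¹)` -/
def RR : One where
  k := fun v => (v.1 * v.2 * v.1⁻¹, v.1⁻¹)
  ki := fun v => (v.2⁻¹, v.2 * v.1 * v.2⁻¹)
  nat := fun ψ v => by simp
  nati := fun ψ v => by simp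
  l := fun v => by
    ext <;> simp <;> group
  r := fun v => by
    ext <;> simp <;> group
  c := fun v => by
    simp only [commutatorElement_def]
    group

/-- operations on two adjacent handles -/
structure Two where
  k : ∀ {G : Type} [Group G], G × G → G × G → (G × G) × (G × G)
  ki : ∀ {G : Type} [Group G], G × G → G × G → (G × G) × (G × G)
  nat : ∀ {G G' : Type} [Group G] [Group G'] (ψ : G →* G') (v w : G × G),
    k (ψ v.1, ψ v.2) (ψ w.1, ψ w.2) =
      ((ψ (k v w).1.1, ψ (k v w).1.2), (ψ (k v w).2.1, ψ (k v w).2.2))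
  nati : ∀ {G G' : Type} [Group G] [Group G'] (ψ : G →* G') (v w : G × G),
    ki (ψ v.1, ψ v.2) (ψ w.1, ψ w.2) =
      ((ψ (ki v w).1.1, ψ (ki v w).1.2), (ψ (ki v w).2.1, ψ (ki v w).2.2))
  l : ∀ {G : Type} [Group G] (v w : G × G), ki (k v w).1 (k v w).2 = (v, w)
  r : ∀ {G : Type} [Group G] (v w : G × G), k (ki v w).1 (ki v w).2 = (v, w)
  c : ∀ {G : Type} [Group G] (v w : G × G),
    ⁅(k v w).1.1, (k v w).1.2⁆ * ⁅(k v w).2.1, (k v w).2.2⁆ = ⁅v.1, v.2⁆ * ⁅w.1, w.2⁆

/-- the operation on the first two handles -/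
def Two.hd (K : Two) : Move where
  f := fun a => match a with
    | ([], c) => ([], c)
    | ([v], c) => ([v], c)
    | (v :: w :: l, c) => ((K.k v w).1 :: (K.k v w).2 :: l, c)
  fi := fun a => match a with
    | ([], c) => ([], c)
    | ([v], c) => ([v], c)
    | (v :: w :: l, c) => ((K.ki v w).1 :: (K.ki v w).2 :: l, c)
  nat := by
    rintro G G' _ _ ψ ⟨_ | ⟨v, _ | ⟨w, l⟩⟩, c⟩
    · rfl
    · rfl
    · simp only [mp, List.map_cons, K.nat]
  nati := by
    rintro G G' _ _ ψ ⟨_ | ⟨v, _ | ⟨w, l⟩⟩, c⟩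
    · rfl
    · rfl
    · simp only [mp, List.map_cons, K.nati]
  l := by
    rintro G _ ⟨_ | ⟨v, _ | ⟨w, l⟩⟩, c⟩
    · rfl
    · rfl
    · simp only [K.l]
  r := by
    rintro G _ ⟨_ | ⟨v, _ | ⟨w, l⟩⟩, c⟩
    · rfl
    · rfl
    · simp only [K.r]
  p := by
    rintro G _ ⟨_ | ⟨v, _ | ⟨w, l⟩⟩, c⟩
    · rfl
    · rfl
    · simp only [tot_cons, ← mul_assoc, K.c]
  len := by
    rintro G _ ⟨_ | ⟨v, _ | ⟨w, l⟩⟩, c⟩ <;> rfl
  cj := by
    rintro G _ ⟨_ | ⟨v, _ | ⟨w, l⟩⟩, c⟩ <;> exact forall₂_conj_refl c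

/-- swap of two handles -/
def SS : Two where
  k := fun v w => ((⁅v.1, v.2⁆ * w.1 * ⁅v.1, v.2⁆⁻¹, ⁅v.1, v.2⁆ * w.2 * ⁅v.1, v.2⁆⁻¹), v)
  ki := fun v w => (w, (⁅w.1, w.2⁆⁻¹ * v.1 * ⁅w.1, w.2⁆, ⁅w.1, w.2⁆⁻¹ * v.2 * ⁅w.1, w.2⁆))
  nat := fun ψ v w => by simp [map_commutatorElement]
  nati := fun ψ v w => by simp [map_commutatorElement]
  l := fun v w => by
    refine Prod.ext rfl (Prod.ext ?_ ?_) <;> simp <;> group
  r := fun v w => by
    refine Prod.ext (Prod.ext ?_ ?_) rfl <;> simp <;> group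
  c := fun v w => by
    simp only [commutatorElement_def]
    group

/-- the twist along a curve through two handles, `z = y_1⁻¹ x_2 y_2 x_2⁻¹` -/
def ZZ : Two where
  k := fun v w => ((v.1 * (v.2⁻¹ * (w.1 * w.2 * w.1⁻¹)), (v.2⁻¹ * (w.1 * w.2 * w.1⁻¹))⁻¹ * v.2 *
    (v.2⁻¹ * (w.1 * w.2 * w.1⁻¹))), ((v.2⁻¹ * (w.1 * w.2 * w.1⁻¹))⁻¹ * w.1, w.2))
  ki := fun v w => ((v.1 * (v.2⁻¹ * (w.1 * w.2 * w.1⁻¹))⁻¹, (v.2⁻¹ * (w.1 * w.2 * w.1⁻¹)) * v.2 *
    (v.2⁻¹ * (w.1 * w.2 * w.1⁻¹))⁻¹), ((v.2⁻¹ * (w.1 * w.2 * w.1⁻¹)) * w.1, w.2))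
  nat := fun ψ v w => by simp
  nati := fun ψ v w => by simp
  l := fun v w => by
    refine Prod.ext (Prod.ext ?_ ?_) (Prod.ext ?_ ?_) <;> simp <;> group
  r := fun v w => by
    refine Prod.ext (Prod.ext ?_ ?_) (Prod.ext ?_ ?_) <;> simp <;> group
  c := fun v w => by
    simp only [commutatorElement_def]
    group

section skip

/-- conjugation of all handles -/
def cjl {G : Type} [Group G] (d : G) (l : List (G × G)) : List (G × G) :=
  l.map fun v => (d * v.1 * d⁻¹, d * v.2 * d⁻¹)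

theorem com_cjl {G : Type} [Group G] (d : G) (l : List (G × G)) : com (cjl d l) = d * com l * d⁻¹ := by
  induction l with
  | nil => simp [cjl, com]
  | cons v l ih =>
    have e : cjl d (v :: l) = (d * v.1 * d⁻¹, d * v.2 * d⁻¹) :: cjl d l := rfl
    rw [e, com_cons, com_cons, ih]
    simp only [commutatorElement_def]
    group

theorem cjl_inv {G : Type} [Group G] (d : G) (l : List (G × G)) : cjl d (cjl d⁻¹ l) = l := by
  unfold cjl
  rw [List.map_map]
  conv_rhs => rw [← List.map_id l]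
  congr 1
  funext v
  simp only [Function.comp, id]
  ext <;> dsimp only <;> group

theorem cjl_inv' {G : Type} [Group G] (d : G) (l : List (G × G)) : cjl d⁻¹ (cjl d l) = l := by
  have := cjl_inv d⁻¹ l
  rwa [inv_inv] at this

theorem cjl_map {G G' : Type} [Group G] [Group G'] (ψ : G →* G') (d : G) (l : List (G × G)) :
    cjl (ψ d) (l.map fun v => (ψ v.1, ψ v.2)) = (cjl d l).map fun v => (ψ v.1, ψ v.2) := by
  unfold cjl
  rw [List.map_map, List.map_map]
  congr 1
  funext v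
  simp [Function.comp]

theorem cjl_length {G : Type} [Group G] (d : G) (l : List (G × G)) : (cjl d l).length = l.length := by
  simp [cjl]

/-- the operation with the first branch loop moved to the left of all handles -/
def Move.skip (M : Move) : Move where
  f := fun a => match a with
    | (l, []) => (l, [])
    | (l, d :: c) => (cjl d (M.f (cjl d⁻¹ l, c)).1, d :: (M.f (cjl d⁻¹ l, c)).2)
  fi := fun a => match a with
    | (l, []) => (l, [])
    | (l, d :: c) => (cjl d (M.fi (cjl d⁻¹ l, c)).1, d :: (M.fi (cjl d⁻¹ l, c)).2)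
  nat := by
    rintro G G' _ _ ψ ⟨l, _ | ⟨d, c⟩⟩
    · rfl
    · have := M.nat ψ (cjl d⁻¹ l, c)
      simp only [mp] at this ⊢
      simp only [List.map_cons, ← map_inv, cjl_map]
      rw [this]
      simp only [cjl_map]
  nati := by
    rintro G G' _ _ ψ ⟨l, _ | ⟨d, c⟩⟩
    · rfl
    · have := M.nati ψ (cjl d⁻¹ l, c)
      simp only [mp] at this ⊢
      simp only [List.map_cons, ← map_inv, cjl_map]
      rw [this]
      simp only [cjl_map]
  l := by
    rintro G _ ⟨l, _ | ⟨d, c⟩⟩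
    · rfl
    · have := M.l (cjl d⁻¹ l, c)
      simp only [cjl_inv', Prod.mk.eta, this, cjl_inv]
  r := by
    rintro G _ ⟨l, _ | ⟨d, c⟩⟩
    · rfl
    · have := M.r (cjl d⁻¹ l, c)
      simp only [cjl_inv', Prod.mk.eta, this, cjl_inv]
  p := by
    rintro G _ ⟨l, _ | ⟨d, c⟩⟩
    · rfl
    · have := M.p (cjl d⁻¹ l, c)
      simp only [tot, com_cjl, List.prod_cons] at this ⊢
      have h2 : com (M.f (cjl d⁻¹ l, c)).1 * (M.f (cjl d⁻¹ l, c)).2.prod = d⁻¹ * com l * d⁻¹⁻¹ * c.prod := this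
      calc d * com (M.f (cjl d⁻¹ l, c)).1 * d⁻¹ * (d * (M.f (cjl d⁻¹ l, c)).2.prod)
          = d * (com (M.f (cjl d⁻¹ l, c)).1 * (M.f (cjl d⁻¹ l, c)).2.prod) := by group
        _ = com l * (d * c.prod) := by rw [h2]; group
  len := by
    rintro G _ ⟨l, _ | ⟨d, c⟩⟩
    · rfl
    · simp only [cjl_length, M.len]
  cj := by
    rintro G _ ⟨l, _ | ⟨d, c⟩⟩
    · exact forall₂_conj_refl []
    · exact List.Forall₂.cons (IsConj.refl d) (M.cj (cjl d⁻¹ l, c))

end skip

/-- the twist along a curve through the last handle and the first branch loop -/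
def PC : Move where
  f := fun a => match a with
    | ([v], c :: l) =>
      ([(((v.1 * v.2 * v.1⁻¹ * c) * c * (v.1 * v.2 * v.1⁻¹ * c)⁻¹) * (v.1 * v.2 * v.1⁻¹ * c) * c⁻¹ * v.1 * c *
          ((v.1 * v.2 * v.1⁻¹ * c) * c * (v.1 * v.2 * v.1⁻¹ * c)⁻¹)⁻¹,
        ((v.1 * v.2 * v.1⁻¹ * c) * c * (v.1 * v.2 * v.1⁻¹ * c)⁻¹) * c⁻¹ * v.2 * c *
          ((v.1 * v.2 * v.1⁻¹ * c) * c * (v.1 * v.2 * v.1⁻¹ * c)⁻¹)⁻¹)],
       ((v.1 * v.2 * v.1⁻¹ * c) * c * (v.1 * v.2 * v.1⁻¹ * c)⁻¹) :: l)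
    | a => a
  fi := fun a => match a with
    | ([v], c :: l) =>
      ([(((v.1 * v.2 * v.1⁻¹ * c)⁻¹ * c * (v.1 * v.2 * v.1⁻¹ * c)) * (v.1 * v.2 * v.1⁻¹ * c)⁻¹ * c⁻¹ * v.1 * c *
          ((v.1 * v.2 * v.1⁻¹ * c)⁻¹ * c * (v.1 * v.2 * v.1⁻¹ * c))⁻¹,
        ((v.1 * v.2 * v.1⁻¹ * c)⁻¹ * c * (v.1 * v.2 * v.1⁻¹ * c)) * c⁻¹ * v.2 * c *
          ((v.1 * v.2 * v.1⁻¹ * c)⁻¹ * c * (v.1 * v.2 * v.1⁻¹ * c))⁻¹)],
       ((v.1 * v.2 * v.1⁻¹ * c)⁻¹ * c * (v.1 * v.2 * v.1⁻¹ * c)) :: l)
    | a => a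
  nat := by
    rintro G G' _ _ ψ ⟨_ | ⟨v, _ | ⟨w, l⟩⟩, _ | ⟨c, cs⟩⟩ <;> simp [mp]
  nati := by
    rintro G G' _ _ ψ ⟨_ | ⟨v, _ | ⟨w, l⟩⟩, _ | ⟨c, cs⟩⟩ <;> simp [mp]
  l := by
    rintro G _ ⟨_ | ⟨v, _ | ⟨w, l⟩⟩, _ | ⟨c, cs⟩⟩
    · rfl
    · rfl
    · rfl
    · obtain ⟨x, y⟩ := v
      dsimp only
      refine Prod.ext (congrArg₂ _ (Prod.ext ?_ ?_) rfl) (congrArg₂ _ ?_ rfl) <;> (try dsimp only) <;> group
    · rfl
    · rfl
  r := by
    rintro G _ ⟨_ | ⟨v, _ | ⟨w, l⟩⟩, _ | ⟨c, cs⟩⟩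
    · rfl
    · rfl
    · rfl
    · obtain ⟨x, y⟩ := v
      dsimp only
      refine Prod.ext (congrArg₂ _ (Prod.ext ?_ ?_) rfl) (congrArg₂ _ ?_ rfl) <;> (try dsimp only) <;> group
    · rfl
    · rfl
  p := by
    rintro G _ ⟨_ | ⟨v, _ | ⟨w, l⟩⟩, _ | ⟨c, cs⟩⟩
    · rfl
    · rfl
    · rfl
    · simp only [tot, com_cons, com_nil, List.prod_cons, commutatorElement_def]
      group
    · rfl
    · rfl
  len := by
    rintro G _ ⟨_ | ⟨v, _ | ⟨w, l⟩⟩, _ | ⟨c, cs⟩⟩ <;> rfl
  cj := by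
    rintro G _ ⟨_ | ⟨v, _ | ⟨w, l⟩⟩, _ | ⟨c, cs⟩⟩
    · exact forall₂_conj_refl _
    · exact forall₂_conj_refl _
    · exact forall₂_conj_refl _
    · exact List.Forall₂.cons (isConj_iff.2 ⟨_, rfl⟩) (forall₂_conj_refl cs)
    · exact forall₂_conj_refl _
    · exact forall₂_conj_refl _

end PrymNil
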