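import Pool.Agent.Lib.MP_943dad_ag.NH.Move

/-!
# Reachable states, slides
-/

open scoped commutatorElement

namespace PrymNil

/-- `b` is obtained from `a` by a move -/
def Reach {G : Type} [Group G] (a b : St G) : Prop := ∃ M : Move, M.f a = b

section basic

variable {G G' : Type} [Group G] [Group G']

theorem Reach.refl (a : St G) : Reach a a := ⟨Move.one, rfl⟩

theorem Reach.trans {a b c : St G} (h : Reach a b) (h' : Reach b c) : Reach a c := by
  obtain ⟨M, rfl⟩ := h
  obtain ⟨N, rfl⟩ := h'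
  exact ⟨M.trans N, rfl⟩

theorem Reach.symm {a b : St G} (h : Reach a b) : Reach b a := by
  obtain ⟨M, rfl⟩ := h
  exact ⟨M.symm, M.l a⟩

theorem Reach.cons {l l' : List (G × G)} {c c' : List G} (v : G × G) (h : Reach (l, c) (l', c')) :
    Reach (v :: l, c) (v :: l', c') := by
  obtain ⟨M, h⟩ := h
  refine ⟨M.cons, ?_⟩
  simp only [Move.cons, h]

theorem Reach.app {l l' : List (G × G)} {c c' : List G} (p : List (G × G)) (h : Reach (l, c) (l', c')) :
    Reach (p ++ l, c) (p ++ l', c') := by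
  induction p with
  | nil => exact h
  | cons v p ih => exact ih.cons v

theorem Reach.ext {l l' : List (G × G)} {c' : List G} (c : List G) (h : Reach (l, []) (l', c')) :
    Reach (l, c) (l', c) := by
  obtain ⟨M, h⟩ := h
  refine ⟨M.ext, ?_⟩
  simp only [Move.ext, h]

theorem Reach.skip {l l' : List (G × G)} {c c' : List G} (d : G) (h : Reach (cjl d⁻¹ l, c) (cjl d⁻¹ l', c')) :
    Reach (l, d :: c) (l', d :: c') := by
  obtain ⟨M, h⟩ := h
  refine ⟨M.skip, ?_⟩
  simp only [Move.skip, h, cjl_inv]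

theorem Reach.map {a b : St G} (h : Reach a b) (ψ : G →* G') : Reach (mp ψ a) (mp ψ b) := by
  obtain ⟨M, rfl⟩ := h
  exact ⟨M, M.nat ψ a⟩

theorem Reach.lift {a : St G} {b : St G'} (ψ : G →* G') (h : Reach (mp ψ a) b) : ∃ b', Reach a b' ∧ mp ψ b' = b := by
  obtain ⟨M, rfl⟩ := h
  exact ⟨M.f a, ⟨M, rfl⟩, (M.nat ψ a).symm⟩

theorem Reach.len {a b : St G} (h : Reach a b) : b.1.length = a.1.length := by
  obtain ⟨M, rfl⟩ := h
  exact M.len a

theorem Reach.one (K : One) (v : G × G) (l : List (G × G)) (c : List G) : Reach (v :: l, c) (K.k v :: l, c) :=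
  ⟨K.hd, rfl⟩

theorem Reach.two (K : Two) (v w : G × G) (l : List (G × G)) (c : List G) :
    Reach (v :: w :: l, c) ((K.k v w).1 :: (K.k v w).2 :: l, c) :=
  ⟨K.hd, rfl⟩

/-- the entries of a state -/
def ent (a : St G) : Set G := {x | (∃ v ∈ a.1, x = v.1 ∨ x = v.2) ∨ x ∈ a.2}

theorem ent_map (ψ : G →* G') (a : St G) : ent (mp ψ a) = ψ '' ent a := by
  ext x
  constructor
  · rintro (⟨v, hv, hx⟩ | hx)
    · obtain ⟨w, hw, rfl⟩ := List.mem_map.1 hv
      rcases hx with rfl | rfl
      · exact ⟨w.1, Or.inl ⟨w, hw, Or.inl rfl⟩, rfl⟩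
      · exact ⟨w.2, Or.inl ⟨w, hw, Or.inr rfl⟩, rfl⟩
    · obtain ⟨y, hy, rfl⟩ := List.mem_map.1 hx
      exact ⟨y, Or.inr hy, rfl⟩
  · rintro ⟨y, ⟨v, hv, hy⟩ | hy, rfl⟩
    · refine Or.inl ⟨(ψ v.1, ψ v.2), List.mem_map.2 ⟨v, hv, rfl⟩, ?_⟩
      rcases hy with rfl | rfl
      · exact Or.inl rfl
      · exact Or.inr rfl
    · exact Or.inr (List.mem_map.2 ⟨y, hy, rfl⟩)

/-- a state with entries in a subgroup comes from the subgroup -/
theorem exists_mp (K : Subgroup G) (a : St G) (h : ent a ⊆ K) : ∃ b : St K, mp K.subtype b = a := by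
  obtain ⟨l, c⟩ := a
  have h1 : ∀ l : List (G × G), (∀ v ∈ l, v.1 ∈ K ∧ v.2 ∈ K) →
      ∃ l' : List (K × K), (l'.map fun v => (K.subtype v.1, K.subtype v.2)) = l := by
    intro l
    induction l with
    | nil => exact fun _ => ⟨[], rfl⟩
    | cons v l ih =>
      intro h
      obtain ⟨l', hl'⟩ := ih fun w hw => h w (List.mem_cons_of_mem _ hw)
      have hv := h v List.mem_cons_self
      refine ⟨(⟨v.1, hv.1⟩, ⟨v.2, hv.2⟩) :: l', ?_⟩
      rw [List.map_cons, hl']
      rfl
  have h2 : ∀ c : List G, (∀ x ∈ c, x ∈ K) → ∃ c' : List K, c'.map K.subtype = c := by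
    intro c
    induction c with
    | nil => exact fun _ => ⟨[], rfl⟩
    | cons x c ih =>
      intro h
      obtain ⟨c', hc'⟩ := ih fun w hw => h w (List.mem_cons_of_mem _ hw)
      exact ⟨⟨x, h x List.mem_cons_self⟩ :: c', by rw [List.map_cons, hc']; rfl⟩
  obtain ⟨l', hl'⟩ := h1 l fun v hv => ⟨h (Or.inl ⟨v, hv, Or.inl rfl⟩), h (Or.inl ⟨v, hv, Or.inr rfl⟩)⟩
  obtain ⟨c', hc'⟩ := h2 c fun x hx => h (Or.inr hx)
  exact ⟨(l', c'), by rw [mp_mk, hl', hc']⟩

theorem Reach.ent_le {a b : St G} (h : Reach a b) : ent b ⊆ Subgroup.closure (ent a) := by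
  obtain ⟨a', ha'⟩ := exists_mp (Subgroup.closure (ent a)) a Subgroup.subset_closure
  obtain ⟨M, rfl⟩ := h
  have h1 : M.f a = mp (Subgroup.closure (ent a)).subtype (M.f a') := by
    rw [← M.nat, ha']
  rw [h1, ent_map]
  rintro _ ⟨x, -, rfl⟩
  exact x.2

theorem Reach.closure_eq {a b : St G} (h : Reach a b) : Subgroup.closure (ent b) = Subgroup.closure (ent a) :=
  le_antisymm ((Subgroup.closure_le _).2 h.ent_le) ((Subgroup.closure_le _).2 h.symm.ent_le)

end basic

section slide

variable {G : Type} [Group G]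

/-- a handle `(x, 1)` moves freely over other handles -/
theorem float (l : List (G × G)) (x : G) (c : List G) :
    Reach (l ++ [(x, 1)], c) ((com l * x * (com l)⁻¹, 1) :: l, c) := by
  induction l with
  | nil =>
    simp only [List.nil_append, com_nil, one_mul, inv_one, mul_one]
    exact Reach.refl _
  | cons u l ih =>
    have h1 := ih.cons u
    have h2 := Reach.two SS u (com l * x * (com l)⁻¹, 1) l c
    have h3 : SS.k u (com l * x * (com l)⁻¹, 1) = ((com (u :: l) * x * (com (u :: l))⁻¹, 1), u) := by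
      simp only [SS, com_cons]
      refine Prod.ext (Prod.ext ?_ ?_) rfl <;> dsimp only <;> group
    rw [h3] at h2
    exact h1.trans h2

theorem slide2 (u : G × G) (x : G) (l : List (G × G)) (c : List G) :
    Reach (u :: (x, 1) :: l, c) (u :: (u.2 * x, 1) :: l, c) := by
  have h1 := Reach.two ZZ u (x, 1) l c
  have h2 := Reach.one (TX 1) (ZZ.k u (x, 1)).1 ((ZZ.k u (x, 1)).2 :: l) c
  have h3 : (TX 1).k (ZZ.k u (x, 1)).1 = u := by
    simp only [TX, ZZ]
    refine Prod.ext ?_ ?_ <;> dsimp only <;> group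
  have h4 : (ZZ.k u (x, 1)).2 = (u.2 * x, 1) := by
    simp only [ZZ]
    refine Prod.ext ?_ ?_
    · dsimp only
      group
    · rfl
  rw [h3, h4] at h2
  rw [h4] at h1
  exact h1.trans h2

theorem slide1 (u : G × G) (x : G) (l : List (G × G)) (c : List G) :
    Reach (u :: (x, 1) :: l, c) (u :: (u.1⁻¹ * x, 1) :: l, c) := by
  have h1 := Reach.one RR u ((x, 1) :: l) c
  have h2 := slide2 (RR.k u) x l c
  have h3 := (Reach.one RR u ((u.1⁻¹ * x, 1) :: l) c).symm
  exact (h1.trans h2).trans h3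

/-- the multipliers of the last handle `(x, 1)` -/
def W (a : St G) : Subgroup G where
  carrier := {w | ∀ x, Reach (a.1 ++ [(x, 1)], a.2) (a.1 ++ [(w * x, 1)], a.2)}
  one_mem' := fun x => by
    rw [one_mul]
    exact Reach.refl _
  mul_mem' := by
    intro w w' h h' x
    rw [mul_assoc]
    exact (h' x).trans (h (w' * x))
  inv_mem' := by
    intro w h x
    have := (h (w⁻¹ * x)).symm
    rwa [mul_inv_cancel_left] at this

theorem mem_W {a : St G} {w : G} : w ∈ W a ↔ ∀ x, Reach (a.1 ++ [(x, 1)], a.2) (a.1 ++ [(w * x, 1)], a.2) :=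
  Iff.rfl

theorem W_cons (v : G × G) (l : List (G × G)) (c : List G) : W (l, c) ≤ W (v :: l, c) :=
  fun _ h x => (h x).cons v

theorem W_app (p l : List (G × G)) (c : List G) : W (l, c) ≤ W (p ++ l, c) := by
  induction p with
  | nil => exact le_rfl
  | cons v p ih => exact ih.trans (W_cons v _ c)

theorem mul_mem_W (u : G × G) (l : List (G × G)) (c : List G) (w : G)
    (h : ∀ x, Reach (u :: (x, 1) :: l, c) (u :: (w * x, 1) :: l, c)) :
    (com l)⁻¹ * w * com l ∈ W (u :: l, c) := by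
  intro x
  have h1 := (float l x c).cons u
  have h2 := h (com l * x * (com l)⁻¹)
  have h3 := ((float l ((com l)⁻¹ * w * com l * x) c).cons u).symm
  have h4 : com l * ((com l)⁻¹ * w * com l * x) * (com l)⁻¹ = w * (com l * x * (com l)⁻¹) := by group
  rw [h4] at h3
  exact (h1.trans h2).trans h3

theorem mem_of_conj_mem (K : Subgroup G) {d w : G} (hd : d ∈ K) (h : d⁻¹ * w * d ∈ K) : w ∈ K := by
  have := K.mul_mem (K.mul_mem hd h) (K.inv_mem hd)
  have e : d * (d⁻¹ * w * d) * d⁻¹ = w := by group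
  rwa [e] at this

theorem handles_mem_W (l : List (G × G)) (c : List G) : (∀ v ∈ l, v.1 ∈ W (l, c) ∧ v.2 ∈ W (l, c)) ∧ com l ∈ W (l, c) := by
  induction l with
  | nil => exact ⟨fun v hv => absurd hv List.not_mem_nil, by rw [com_nil]; exact (W _).one_mem⟩
  | cons u l ih =>
    have hc : com l ∈ W (u :: l, c) := W_cons u l c ih.2
    have h2 : u.2 ∈ W (u :: l, c) := mem_of_conj_mem _ hc (mul_mem_W u l c u.2 fun x => slide2 u x l c)
    have h1 : u.1 ∈ W (u :: l, c) := by
      have := mem_of_conj_mem _ hc (mul_mem_W u l c u.1⁻¹ fun x => slide1 u x l c)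
      exact (Subgroup.inv_mem_iff _).1 this
    refine ⟨?_, ?_⟩
    · intro v hv
      rcases List.mem_cons.1 hv with rfl | hv
      · exact ⟨h1, h2⟩
      · exact ⟨W_cons u l c (ih.1 v hv).1, W_cons u l c (ih.1 v hv).2⟩
    · rw [com_cons, commutatorElement_def]
      exact (W _).mul_mem ((W _).mul_mem ((W _).mul_mem ((W _).mul_mem h1 h2) ((W _).inv_mem h1)) ((W _).inv_mem h2)) hc

theorem branch_mem_W (c : List G) : ∀ d ∈ c, d ∈ W ([], c) := by
  induction c with
  | nil => exact fun d hd => absurd hd List.not_mem_nil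
  | cons e c ih =>
    have he : e ∈ W ([], e :: c) := by
      intro x
      refine ⟨PC, ?_⟩
      simp only [PC, List.nil_append]
      refine Prod.ext (congrArg₂ _ (Prod.ext ?_ ?_) rfl) (congrArg₂ _ ?_ rfl) <;> (try dsimp only) <;> group
    intro d hd
    rcases List.mem_cons.1 hd with rfl | hd
    · exact he
    · have h1 : e * d * e⁻¹ ∈ W ([], e :: c) := by
        intro x
        refine Reach.skip e ?_
        have h2 := ih d hd (e⁻¹ * x * e)
        have h3 : cjl e⁻¹ (([] : List (G × G)) ++ [(x, 1)]) = [] ++ [(e⁻¹ * x * e, 1)] := by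
          simp [cjl]
        have h4 : cjl e⁻¹ (([] : List (G × G)) ++ [(e * d * e⁻¹ * x, 1)]) = [] ++ [(d * (e⁻¹ * x * e), 1)] := by
          simp only [cjl, List.nil_append, List.map_cons, List.map_nil]
          refine congrArg₂ _ (Prod.ext ?_ ?_) rfl <;> dsimp only <;> group
        rw [h3, h4]
        exact h2
      have h5 : e⁻¹⁻¹ * d * e⁻¹ ∈ W ([], e :: c) := by rwa [inv_inv]
      exact mem_of_conj_mem _ ((W _).inv_mem he) h5

theorem ent_le_W (a : St G) : Subgroup.closure (ent a) ≤ W a := by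
  rw [Subgroup.closure_le]
  rintro x (⟨v, hv, hx⟩ | hx)
  · have := (handles_mem_W a.1 a.2).1 v hv
    rcases hx with rfl | rfl
    · exact this.1
    · exact this.2
  · have := W_app a.1 [] a.2 (branch_mem_W a.2 x hx)
    rwa [List.append_nil] at this

/-- a last handle `(x, 1)` with `x` in the subgroup generated by all other entries can be killed -/
theorem kill_last (l : List (G × G)) (c : List G) (x : G) (h : x ∈ Subgroup.closure (ent (l, c))) :
    Reach (l ++ [(x, 1)], c) (l ++ [(1, 1)], c) := by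
  have h1 := ent_le_W (l, c) (Subgroup.inv_mem _ h) x
  rwa [inv_mul_cancel] at h1

end slide

end PrymNil
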