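import Pool.Agent.Lib.MP_943dad_ag.NH.Kill
import Pool.Agent.Lib.MP_943dad_ag.NH.Defs

/-!
# Moves are automorphisms of the free group
-/

open scoped commutatorElement

namespace PrymNil

section real

variable {G : Type} [Group G]

/-- the state of the generators -/
def univ (g n : ℕ) : St (F g n) := (List.ofFn fun i : Fin g => (ga n i, gb n i), List.ofFn fun j : Fin n => gc g j)

theorem tot_univ (g n : ℕ) : tot (univ g n) = bdry g n := by
  unfold tot univ bdry com
  rw [List.map_ofFn]
  rfl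

/-- the homomorphism with given values -/
def ofSt (g n : ℕ) (a : St G) : F g n →* G :=
  FreeGroup.lift fun s => match s with
    | Sum.inl (i, false) => (a.1.getD i (1, 1)).1
    | Sum.inl (i, true) => (a.1.getD i (1, 1)).2
    | Sum.inr j => a.2.getD j 1

theorem mp_univ (g n : ℕ) (φ : F g n →* G) :
    mp φ (univ g n) = (List.ofFn fun i : Fin g => (φ (ga n i), φ (gb n i)), List.ofFn fun j : Fin n => φ (gc g j)) := by
  unfold mp univ
  rw [List.map_ofFn, List.map_ofFn]
  rfl

theorem mp_ofSt (g n : ℕ) (a : St G) (h1 : a.1.length = g) (h2 : a.2.length = n) : mp (ofSt g n a) (univ g n) = a := by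
  rw [mp_univ]
  refine Prod.ext (List.ext_getElem (by simp [h1]) fun i h3 h4 => ?_) (List.ext_getElem (by simp [h2]) fun i h3 h4 => ?_)
  · rw [List.getElem_ofFn]
    unfold ofSt ga gb
    rw [FreeGroup.lift_apply_of, FreeGroup.lift_apply_of]
    simp [h4]
  · rw [List.getElem_ofFn]
    unfold ofSt gc
    rw [FreeGroup.lift_apply_of]
    simp [h4]

theorem hom_ext {g n : ℕ} {φ ψ : F g n →* G} (h : mp φ (univ g n) = mp ψ (univ g n)) : φ = ψ := by
  rw [mp_univ, mp_univ, Prod.mk.injEq] at h
  have h1 := List.ofFn_injective h.1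
  have h2 := List.ofFn_injective h.2
  ext s
  rcases s with ⟨i, _ | _⟩ | j
  · exact congrArg Prod.fst (congrFun h1 i)
  · exact congrArg Prod.snd (congrFun h1 i)
  · exact congrFun h2 j

theorem realise {g n : ℕ} (φ : F g n →* G) (b : St G) (h : Reach (mp φ (univ g n)) b) :
    ∃ α : F g n ≃* F g n, α (bdry g n) = bdry g n ∧ (∀ j, IsConj (gc g j) (α (gc g j))) ∧
      mp (φ.comp α.toMonoidHom) (univ g n) = b := by
  obtain ⟨M, rfl⟩ := h
  have l1 : (univ g n).1.length = g := by simp [univ]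
  have l2 : (univ g n).2.length = n := by simp [univ]
  have l3 : (M.f (univ g n)).2.length = n := by rw [← (M.cj (univ g n)).length_eq, l2]
  have l4 : (M.fi (univ g n)).2.length = n := (M.symm.cj (univ g n)).length_eq.symm.trans l2
  have l5 : (M.f (univ g n)).1.length = g := by rw [M.len, l1]
  have l6 : (M.fi (univ g n)).1.length = g := by
    have := M.symm.len (univ g n)
    exact this.trans l1
  set θ := ofSt g n (M.f (univ g n)) with hθ
  set θ' := ofSt g n (M.fi (univ g n)) with hθ'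
  have e1 : mp θ (univ g n) = M.f (univ g n) := mp_ofSt _ _ _ l5 l3
  have e2 : mp θ' (univ g n) = M.fi (univ g n) := mp_ofSt _ _ _ l6 l4
  have h3 : θ.comp θ' = MonoidHom.id _ := by
    apply hom_ext
    rw [← mp_mp, e2, ← M.nati, e1, M.l]
    simp [mp]
  have h4 : θ'.comp θ = MonoidHom.id _ := by
    apply hom_ext
    rw [← mp_mp, e1, ← M.nat, e2, M.r]
    simp [mp]
  refine ⟨MonoidHom.toMulEquiv θ θ' h4 h3, ?_, ?_, ?_⟩
  · have h5 := M.p (univ g n)
    rw [← e1, tot_mp, tot_univ] at h5
    exact h5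
  · intro j
    have h5 := M.cj (univ g n)
    rw [← e1, mp_univ] at h5
    have h6 := (List.forall₂_iff_get.1 h5).2 j (by simp [univ]) (by simp)
    simpa [univ] using h6
  · have h5 : mp (φ.comp θ) (univ g n) = M.f (mp φ (univ g n)) := by
      rw [← mp_mp, e1, ← M.nat]
    exact h5

/-- The theorem for nilpotent groups. -/
theorem nilpotent_handles {H : Type} [Group H] [Finite H] [Group.IsNilpotent H] {d g n : ℕ} (s : Fin d → H)
    (hs : Subgroup.closure (Set.range s) = ⊤) (φ : F g n →* H) (hφ : Function.Surjective φ) :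
    ∃ α : F g n ≃* F g n, α (bdry g n) = bdry g n ∧ (∀ j, IsConj (gc g j) (α (gc g j))) ∧
      ∀ i : Fin g, d ≤ (i : ℕ) → φ (α (ga n i)) = 1 ∧ φ (α (gb n i)) = 1 := by
  by_cases hdg : d ≤ g
  · obtain ⟨k, rfl⟩ := Nat.exists_eq_add_of_le hdg
    have h1 : Subgroup.closure {x | x ∈ List.ofFn s} = ⊤ := by
      rw [← hs]
      congr 1
      ext x
      simp
    have h2 : Subgroup.closure (ent (mp φ (univ (d + k) n))) = ⊤ := by
      rw [ent_map, ← MonoidHom.map_closure]
      have h3 : Subgroup.closure (ent (univ (d + k) n)) = ⊤ := by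
        rw [eq_top_iff, ← FreeGroup.closure_range_of, Subgroup.closure_le]
        rintro _ ⟨x, rfl⟩
        apply Subgroup.subset_closure
        rcases x with ⟨i, _ | _⟩ | j
        · exact Or.inl ⟨(ga n i, gb n i), (List.mem_ofFn' _ _).2 ⟨i, rfl⟩, Or.inl rfl⟩
        · exact Or.inl ⟨(ga n i, gb n i), (List.mem_ofFn' _ _).2 ⟨i, rfl⟩, Or.inr rfl⟩
        · exact Or.inr ((List.mem_ofFn' _ _).2 ⟨j, rfl⟩)
      rw [h3, ← MonoidHom.range_eq_map, MonoidHom.range_eq_top.2 hφ]
    obtain ⟨l1, c', hl1, hr⟩ := nilpotent_kill k d (Nat.card H) H rfl (List.ofFn s) (by simp) h1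
      (mp φ (univ (d + k) n)).1 (mp φ (univ (d + k) n)).2 (by simp [mp, univ]) h2
    obtain ⟨α, hα1, hα2, hα3⟩ := realise φ _ hr
    refine ⟨α, hα1, hα2, fun i hi => ?_⟩
    rw [mp_univ, Prod.mk.injEq] at hα3
    have h4 : (List.ofFn fun i : Fin (d + k) => (φ (α (ga n i)), φ (α (gb n i)))) = l1 ++ List.replicate k (1, 1) := hα3.1
    have h5 : (List.ofFn fun i : Fin (d + k) => (φ (α (ga n i)), φ (α (gb n i))))[(i : ℕ)]'(by simp) = (1, 1) := by
      simp only [h4]
      rw [List.getElem_append_right (by omega), List.getElem_replicate]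
    rw [List.getElem_ofFn] at h5
    rw [Prod.mk.injEq] at h5
    exact h5
  · exact ⟨MulEquiv.refl _, rfl, fun j => IsConj.refl _, fun i hi => absurd i.2 (by omega)⟩

end real

end PrymNil
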